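import Pool.Agent.Lib.MP_a60258_s6.H9.Kid

/-!
# Module RFA: the corrections are dominated by the mirror graphs
-/

open Finset MvPolynomial

namespace A602.S6.H9

/-- the module statement with a constant which does not depend on the polynomial -/
def RfaUStatement : Prop := ∀ (p : ℕ) (tab : List BL) (bn : BL) (sn : SE),
  2 ≤ p → p ≤ 11 → (tab.map fun b => b.key).Nodup → (∀ bl ∈ tab, okB p bl = true) →
  (∀ bl ∈ tab, ddB p (cm (p - 1) 1 0) bl = true) →
  bn ∈ tab → sn ∈ bn.ss → sn.code = cm (p - 1) 1 0 →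
  ∃ c : ℝ, 0 < c ∧ ∀ (S : Finset ℕ) (P : R), Cha S p P → c * Vx S P (mir p ![p - 1, 1, 0])
    ≤ Lf (3 * p) fun x : Pr → ℕ => (Rf p tab x : ℝ) * Vx S P x

/-! ### First matches as sums -/

lemma sum_map_zero {α β : Type} [AddCommMonoid β] (l : List α) (f : α → β)
    (h : ∀ a ∈ l, f a = 0) : (l.map f).sum = 0 := by
  induction l with
  | nil => rfl
  | cons a l ih =>
    rw [List.map_cons, List.sum_cons, h a List.mem_cons_self,
      ih fun b hb => h b (List.mem_cons_of_mem _ hb), add_zero]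

lemma sum_map_congr {α β : Type} [AddCommMonoid β] (l : List α) (f g : α → β)
    (h : ∀ a ∈ l, f a = g a) : (l.map f).sum = (l.map g).sum := by
  rw [List.map_congr_left h]

lemma sum_fm {α β γ : Type} [AddCommMonoid γ] (l : List α) (f : α → List β) (F : β → γ) :
    ((l.flatMap f).map F).sum = (l.map fun a => ((f a).map F).sum).sum := by
  induction l with
  | nil => rfl
  | cons a l ih => rw [List.flatMap_cons, List.map_append, List.sum_append, ih, List.map_cons,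
      List.sum_cons]

lemma fB_sum (f : BL → ℤ) (K : ℕ) : ∀ (tab : List BL), (tab.map fun b => b.key).Nodup →
    fB 0 tab K f = (tab.map fun b => if b.key = K then f b else 0).sum
  | [], _ => rfl
  | b :: tab, h => by
    show cond (Nat.beq b.key K) (f b) (fB 0 tab K f) = _
    rw [List.map_cons, List.sum_cons]
    rw [List.map_cons, List.nodup_cons] at h
    by_cases hk : b.key = K
    · rw [nbeq.mpr hk, cond_true, if_pos hk, sum_map_zero, add_zero]
      intro a ha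
      rw [if_neg]
      intro h2
      exact h.1 (List.mem_map.mpr ⟨a, ha, by rw [h2, hk]⟩)
    · have : Nat.beq b.key K = false := by
        rw [← Bool.not_eq_true, nbeq]; exact hk
      rw [this, cond_false, if_neg hk, zero_add]
      exact fB_sum f K tab h.2

lemma fS_sum (f : SE → ℤ) (K : ℕ) : ∀ (tab : List SE), (tab.map fun b => b.code).Nodup →
    fS 0 tab K f = (tab.map fun b => if b.code = K then f b else 0).sum
  | [], _ => rfl
  | b :: tab, h => by
    show cond (Nat.beq b.code K) (f b) (fS 0 tab K f) = _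
    rw [List.map_cons, List.sum_cons]
    rw [List.map_cons, List.nodup_cons] at h
    by_cases hk : b.code = K
    · rw [nbeq.mpr hk, cond_true, if_pos hk, sum_map_zero, add_zero]
      intro a ha
      rw [if_neg]
      intro h2
      exact h.1 (List.mem_map.mpr ⟨a, ha, by rw [h2, hk]⟩)
    · have : Nat.beq b.code K = false := by
        rw [← Bool.not_eq_true, nbeq]; exact hk
      rw [this, cond_false, if_neg hk, zero_add]
      exact fS_sum f K tab h.2

lemma fT_sum (f : TE → ℤ) (K : ℕ) : ∀ (tab : List TE), (tab.map fun b => b.code).Nodup →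
    fT 0 tab K f = (tab.map fun b => if b.code = K then f b else 0).sum
  | [], _ => rfl
  | b :: tab, h => by
    show cond (Nat.beq b.code K) (f b) (fT 0 tab K f) = _
    rw [List.map_cons, List.sum_cons]
    rw [List.map_cons, List.nodup_cons] at h
    by_cases hk : b.code = K
    · rw [nbeq.mpr hk, cond_true, if_pos hk, sum_map_zero, add_zero]
      intro a ha
      rw [if_neg]
      intro h2
      exact h.1 (List.mem_map.mpr ⟨a, ha, by rw [h2, hk]⟩)
    · have : Nat.beq b.code K = false := by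
        rw [← Bool.not_eq_true, nbeq]; exact hk
      rw [this, cond_false, if_neg hk, zero_add]
      exact fT_sum f K tab h.2

lemma cor_sum (K : ℕ) : ∀ (tab : List (ℕ × ℤ)), (tab.map Prod.fst).Nodup →
    cor tab K = (tab.map fun b => if b.1 = K then b.2 else 0).sum
  | [], _ => rfl
  | b :: tab, h => by
    show cond (Nat.beq b.1 K) b.2 (cor tab K) = _
    rw [List.map_cons, List.sum_cons]
    rw [List.map_cons, List.nodup_cons] at h
    by_cases hk : b.1 = K
    · rw [nbeq.mpr hk, cond_true, if_pos hk, sum_map_zero, add_zero]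
      intro a ha
      rw [if_neg]
      intro h2
      exact h.1 (List.mem_map.mpr ⟨a, ha, by rw [h2, hk]⟩)
    · have : Nat.beq b.1 K = false := by
        rw [← Bool.not_eq_true, nbeq]; exact hk
      rw [this, cond_false, if_neg hk, zero_add]
      exact cor_sum K tab h.2

lemma okTs_spec : ∀ (ss : List SE), okTs ss = true → (ss.map fun s => s.code).Nodup →
    ∀ se ∈ ss, (se.ts.map fun te => te.code).Nodup ∧
      ∀ te ∈ se.ts, te.code ∈ ss.map fun s => s.code
  | [], _, _, se, h => by simp at h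
  | s :: ss, h, hn, se, hse => by
    unfold okTs at h
    rw [Bool.and_eq_true, decide_eq_true_eq] at h
    rcases List.mem_cons.mp hse with h1 | h1
    · subst h1
      rw [h.1]
      refine ⟨hn, fun te hte => ?_⟩
      rw [← h.1]
      exact List.mem_map.mpr ⟨te, hte, rfl⟩
    · rw [List.map_cons, List.nodup_cons] at hn
      obtain ⟨h2, h3⟩ := okTs_spec ss h.2 hn.2 se h1
      exact ⟨h2, fun te hte => List.mem_cons_of_mem _ (h3 te hte)⟩

/-! ### Digits -/

/-- the table with a given code -/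
def yf (c : ℕ) : Fin 3 × Fin 3 → ℕ := fun ij => yd c ij.1 ij.2

/-- the graph of a correction -/
def XX (q : ℕ × ℕ × ℕ × ℤ) : Pr → ℕ := mk (stf q.1) (stf q.2.1) (yf q.2.2.1)

lemma cy_digits (y : Fin 3 × Fin 3 → ℕ) (hy : ∀ c, y c ≤ 15) :
    yf (cy (y (0, 0)) (y (0, 1)) (y (0, 2)) (y (1, 0)) (y (1, 1)) (y (1, 2)) (y (2, 0)) (y (2, 1))
      (y (2, 2))) = y := by
  have h00 := hy (0, 0)
  have h01 := hy (0, 1)
  have h02 := hy (0, 2)
  have h10 := hy (1, 0)
  have h11 := hy (1, 1)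
  have h12 := hy (1, 2)
  have h20 := hy (2, 0)
  have h21 := hy (2, 1)
  have h22 := hy (2, 2)
  have hcy : cy (y (0, 0)) (y (0, 1)) (y (0, 2)) (y (1, 0)) (y (1, 1)) (y (1, 2)) (y (2, 0))
      (y (2, 1)) (y (2, 2)) = 16 * (16 * (16 * (16 * (16 * (16 * (16 * (16 * y (0, 0) + y (0, 1))
        + y (0, 2)) + y (1, 0)) + y (1, 1)) + y (1, 2)) + y (2, 0)) + y (2, 1)) + y (2, 2) := rfl
  rw [hcy]
  funext ⟨i, j⟩
  fin_cases i <;> fin_cases j <;> simp [yf, yd] <;> omega

lemma yf_cy (c : ℕ) (hc : c < 16 ^ 9) :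
    cy (yf c (0, 0)) (yf c (0, 1)) (yf c (0, 2)) (yf c (1, 0)) (yf c (1, 1)) (yf c (1, 2))
      (yf c (2, 0)) (yf c (2, 1)) (yf c (2, 2)) = c := by
  show 16 * (16 * (16 * (16 * (16 * (16 * (16 * (16 * yf c (0, 0) + yf c (0, 1))
        + yf c (0, 2)) + yf c (1, 0)) + yf c (1, 1)) + yf c (1, 2)) + yf c (2, 0)) + yf c (2, 1))
        + yf c (2, 2) = c
  simp [yf, yd]
  norm_num at hc
  omega

lemma stf_cm (a b c : ℕ) (hb : b ≤ 15) (hc : c ≤ 15) : stf (cm a b c) = ![a, b, c] := by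
  have h : cm a b c = 16 * (16 * a + b) + c := rfl
  have h0 : c0 (cm a b c) = a := by rw [h]; unfold c0; omega
  have h1 : c1 (cm a b c) = b := by rw [h]; unfold c1; omega
  have h2 : c2 (cm a b c) = c := by rw [h]; unfold c2; omega
  unfold stf
  rw [h0, h1, h2]

/-! ### The corrections at a complete graph -/

/-- the condition of the look-up -/
def Cd (p : ℕ) (x : Pr → ℕ) : Prop :=
  x (.inl 1) ≤ x (.inl 0) ∧ x (.inl 2) ≤ x (.inl 1) ∧ x (.inl 0) ≠ p
      ∧ ¬ (2 * x (.inl 0) = p ∧ 2 * x (.inl 2) = p)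
      ∧ x (.inr (.inl 1)) ≤ x (.inr (.inl 0)) ∧ x (.inr (.inl 2)) ≤ x (.inr (.inl 1))

instance (p : ℕ) (x : Pr → ℕ) : Decidable (Cd p x) := by unfold Cd; infer_instance

lemma le_deg (x : Pr → ℕ) (e : Pr) : x e ≤ deg x (ends e).1 := by
  unfold deg
  have h : x e = (if (ends e).1 = (ends e).1 ∨ (ends e).1 = (ends e).2 then x e else 0) := by simp
  calc x e = (if (ends e).1 = (ends e).1 ∨ (ends e).1 = (ends e).2 then x e else 0) := h
    _ ≤ _ := Finset.single_le_sum (f := fun e' => if (ends e).1 = (ends e').1 ∨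
      (ends e).1 = (ends e').2 then x e' else 0) (fun _ _ => Nat.zero_le _) (Finset.mem_univ e)

lemma okS_facts (p : ℕ) (bl : BL) (hok : okB p bl = true) (s : SE) (hs : s ∈ bl.ss) :
    c1 s.code ≤ c0 s.code ∧ c2 s.code ≤ c1 s.code ∧ 1 ≤ c1 s.code ∧ c0 s.code + c1 s.code ≤ p ∧
    bl.key = c0 s.code + c1 s.code + c2 s.code ∧
    cm (c0 s.code) (c1 s.code) (c2 s.code) = s.code ∧ 2 * bl.key < 3 * p := by
  unfold okB at hok
  simp only [Bool.and_eq_true, decide_eq_true_eq] at hok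
  obtain ⟨⟨⟨⟨⟨hk, hd⟩, hcst⟩, hnd⟩, hts⟩, hss⟩ := hok
  have hs := List.all_eq_true.mp hss s hs
  unfold okS at hs
  simp only [Bool.and_eq_true, Nat.ble_eq, nbeq] at hs
  obtain ⟨⟨⟨⟨⟨⟨hs1, hs2⟩, hs3⟩, hs4⟩, hs5⟩, hs6⟩, hs7⟩ := hs
  exact ⟨hs1, hs2, hs3, hs4, hs5, hs6, hk⟩

lemma okB_nd (p : ℕ) (bl : BL) (hok : okB p bl = true) :
    (bl.ss.map fun s => s.code).Nodup ∧ okTs bl.ss = true := by
  unfold okB at hok
  simp only [Bool.and_eq_true, decide_eq_true_eq] at hok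
  obtain ⟨⟨⟨⟨⟨hk, hd⟩, hcst⟩, hnd⟩, hts⟩, hss⟩ := hok
  exact ⟨hnd, hts⟩

lemma key_iff (p : ℕ) (bl : BL) (hp : p ≤ 11) (hok : okB p bl = true) (se : SE)
    (hse : se ∈ bl.ss) (te : TE) (hte : te ∈ se.ts) (q : ℕ × ℤ) (hq : q.1 < 16 ^ 9)
    (x : Pr → ℕ) (hx : Cmp p x) :
    x = XX (se.code, te.code, q.1, q.2) ↔
      Cd p x ∧ bl.key = x (.inl 0) + (x (.inl 1) + x (.inl 2)) ∧
      se.code = cm (x (.inl 0)) (x (.inl 1)) (x (.inl 2)) ∧
      te.code = cm (x (.inr (.inl 0))) (x (.inr (.inl 1))) (x (.inr (.inl 2))) ∧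
      q.1 = cy (yy x 0 0) (yy x 0 1) (yy x 0 2) (yy x 1 0) (yy x 1 1) (yy x 1 2) (yy x 2 0)
        (yy x 2 1) (yy x 2 2) := by
  obtain ⟨hnd, hts⟩ := okB_nd p bl hok
  obtain ⟨a1, a2, a3, a4, a5, a6, a7⟩ := okS_facts p bl hok se hse
  obtain ⟨s', hs', hcode⟩ := List.mem_map.mp ((okTs_spec bl.ss hts hnd se hse).2 te hte)
  obtain ⟨b1, b2, b3, b4, b5, b6, b7⟩ := okS_facts p bl hok s' hs'
  rw [hcode] at b1 b2 b3 b4 b5 b6
  constructor
  · rintro rfl
    refine ⟨⟨a1, a2, ?_, ?_, b1, b2⟩, ?_, a6.symm, b6.symm, (yf_cy q.1 hq).symm⟩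
    · show c0 se.code ≠ p
      omega
    · show ¬ (2 * c0 se.code = p ∧ 2 * c2 se.code = p)
      omega
    · show bl.key = c0 se.code + (c1 se.code + c2 se.code)
      omega
  · rintro ⟨_, _, h3, h4, h5⟩
    have hle : ∀ e, x e ≤ 15 := fun e => by
      have h1 := le_deg x e
      rw [hx] at h1
      omega
    unfold XX
    simp only
    rw [h3, h4, h5, stf_cm _ _ _ (hle _) (hle _), stf_cm _ _ _ (hle _) (hle _)]
    have h6 := cy_digits (fun c => x (.inr (.inr c))) fun c => hle _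
    unfold yy
    rw [h6]
    funext e
    rcases e with i | i | c
    · fin_cases i <;> rfl
    · fin_cases i <;> rfl
    · rfl

lemma sum_ite_out {α : Type} (l : List α) (Q : Prop) [Decidable Q] (f : α → ℤ) :
    (if Q then (l.map f).sum else 0) = (l.map fun a => if Q then f a else 0).sum := by
  by_cases h : Q
  · simp [h]
  · simp [h]

lemma ddB_facts (p neck : ℕ) (bl : BL) (h : ddB p neck bl = true) :
    (∀ se ∈ bl.ss, ∀ te ∈ se.ts, (te.corr.map Prod.fst).Nodup) ∧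
    (∀ q ∈ cors bl, okC p q.1 q.2.1 q.2.2.1 = true) ∧
    (∀ q ∈ cors bl, (q.1 = q.2.1 ∧ q.2.2.1 = mirc p q.1) → 0 ≤ q.2.2.2) ∧
    (∀ u ∈ bl.ss.map fun s => s.code, dneg p (fqs p) (cors bl) u ≤ dpos p (fqs p) (cors bl) u) ∧
    (∀ u ∈ bl.ss.map fun s => s.code, u = neck →
      dneg p (fqs p) (cors bl) u < dpos p (fqs p) (cors bl) u) := by
  unfold ddB at h
  simp only [Bool.and_eq_true] at h
  obtain ⟨⟨h1, h2⟩, h3⟩ := h
  rw [List.all_eq_true] at h1 h2 h3
  refine ⟨?_, ?_, ?_, ?_, ?_⟩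
  · intro se hse te hte
    have := h1 se hse
    rw [List.all_eq_true] at this
    exact of_decide_eq_true (this te hte)
  · intro q hq
    have := h2 q hq
    rw [Bool.and_eq_true] at this
    exact this.1
  · intro q hq hm
    have := h2 q hq
    rw [Bool.and_eq_true, Bool.or_eq_true] at this
    rcases this.2 with h4 | h4
    · rw [Bool.not_eq_true', decide_eq_false_iff_not] at h4
      exact absurd hm h4
    · exact of_decide_eq_true h4
  · intro u hu
    have := h3 u hu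
    by_cases hn : u = neck
    · rw [if_pos hn] at this
      exact (of_decide_eq_true this).le
    · rw [if_neg hn] at this
      exact of_decide_eq_true this
  · intro u hu hn
    have := h3 u hu
    rw [if_pos hn] at this
    exact of_decide_eq_true this

lemma mem_cors (bl : BL) (se : SE) (hse : se ∈ bl.ss) (te : TE) (hte : te ∈ se.ts) (q : ℕ × ℤ)
    (hq : q ∈ te.corr) : (se.code, te.code, q.1, q.2) ∈ cors bl := by
  unfold cors
  rw [List.mem_flatMap]
  refine ⟨se, hse, ?_⟩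
  rw [List.mem_flatMap]
  refine ⟨te, hte, ?_⟩
  exact List.mem_map.mpr ⟨q, hq, rfl⟩

lemma Rf_eq (p neck : ℕ) (tab : List BL) (hp : p ≤ 11) (hk : (tab.map fun b => b.key).Nodup)
    (hok : ∀ bl ∈ tab, okB p bl = true) (hdd : ∀ bl ∈ tab, ddB p neck bl = true)
    (x : Pr → ℕ) (hx : Cmp p x) :
    Rf p tab x = ((tab.flatMap cors).map fun q => if x = XX q then q.2.2.2 else 0).sum := by
  rw [sum_fm]
  have hR : Rf p tab x = (tab.map fun bl => (bl.ss.map fun se => (se.ts.map fun te =>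
      (te.corr.map fun q => if Cd p x ∧ bl.key = x (.inl 0) + (x (.inl 1) + x (.inl 2)) ∧
      se.code = cm (x (.inl 0)) (x (.inl 1)) (x (.inl 2)) ∧
      te.code = cm (x (.inr (.inl 0))) (x (.inr (.inl 1))) (x (.inr (.inl 2))) ∧
      q.1 = cy (yy x 0 0) (yy x 0 1) (yy x 0 2) (yy x 1 0) (yy x 1 1) (yy x 1 2) (yy x 2 0)
        (yy x 2 1) (yy x 2 2) then q.2 else 0).sum).sum).sum).sum := by
    unfold Rf lkp
    by_cases hc : Cd p x
    · have hc' := hc
      unfold Cd at hc'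
      rw [if_pos hc', fB_sum _ _ _ hk]
      refine sum_map_congr _ _ _ fun bl hbl => ?_
      obtain ⟨hnd, hts⟩ := okB_nd p bl (hok bl hbl)
      by_cases h1 : bl.key = x (.inl 0) + (x (.inl 1) + x (.inl 2))
      · rw [if_pos h1, fS_sum _ _ _ hnd]
        refine sum_map_congr _ _ _ fun se hse => ?_
        by_cases h2 : se.code = cm (x (.inl 0)) (x (.inl 1)) (x (.inl 2))
        · rw [if_pos h2, fT_sum _ _ _ (okTs_spec bl.ss hts hnd se hse).1]
          refine sum_map_congr _ _ _ fun te hte => ?_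
          by_cases h3 : te.code = cm (x (.inr (.inl 0))) (x (.inr (.inl 1))) (x (.inr (.inl 2)))
          · rw [if_pos h3]
            show cor te.corr _ = _
            rw [cor_sum _ _ ((ddB_facts p neck bl (hdd bl hbl)).1 se hse te hte)]
            refine sum_map_congr _ _ _ fun q _ => ?_
            simp only [hc, h1, h2, h3, true_and]
          · rw [if_neg h3, sum_map_zero]
            intro q _
            rw [if_neg]
            tauto
        · rw [if_neg h2, sum_map_zero]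
          intro te _
          refine sum_map_zero _ _ fun q _ => ?_
          rw [if_neg]
          tauto
      · rw [if_neg h1, sum_map_zero]
        intro se _
        refine sum_map_zero _ _ fun te _ => ?_
        refine sum_map_zero _ _ fun q _ => ?_
        rw [if_neg]
        tauto
    · have hc' := hc
      unfold Cd at hc'
      rw [if_neg hc', sum_map_zero]
      intro bl _
      refine sum_map_zero _ _ fun se _ => ?_
      refine sum_map_zero _ _ fun te _ => ?_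
      refine sum_map_zero _ _ fun q _ => ?_
      rw [if_neg]
      tauto
  rw [hR]
  refine sum_map_congr _ _ _ fun bl hbl => ?_
  unfold cors
  rw [sum_fm]
  refine sum_map_congr _ _ _ fun se hse => ?_
  rw [sum_fm]
  refine sum_map_congr _ _ _ fun te hte => ?_
  rw [List.map_map]
  refine sum_map_congr _ _ _ fun q hq => ?_
  have h1 := (ddB_facts p neck bl (hdd bl hbl)).2.1 _ (mem_cors bl se hse te hte q hq)
  have h2 : q.1 < 16 ^ 9 := by
    unfold okC at h1
    simp only [Bool.and_eq_true, decide_eq_true_eq] at h1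
    exact h1.1.1.1.1.1.1
  have h3 := key_iff p bl hp (hok bl hbl) se hse te hte q h2 x hx
  exact if_congr h3.symm rfl rfl

/-! ### The sum over the graphs -/

lemma okC_cmp (p : ℕ) (q : ℕ × ℕ × ℕ × ℤ) (h : okC p q.1 q.2.1 q.2.2.1 = true) :
    Cmp p (XX q) ∧ ∑ e, XX q e = 3 * p := by
  unfold okC at h
  simp only [Bool.and_eq_true, decide_eq_true_eq] at h
  obtain ⟨⟨⟨⟨⟨⟨h0, h1⟩, h2⟩, h3⟩, h4⟩, h5⟩, h6⟩ := h
  obtain ⟨e0, e1, e2, e3, e4, e5⟩ := deg_mk (stf q.1) (stf q.2.1) (yf q.2.2.1)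
  have s0 : stf q.1 0 = c0 q.1 := rfl
  have s1 : stf q.1 1 = c1 q.1 := rfl
  have s2 : stf q.1 2 = c2 q.1 := rfl
  have t0 : stf q.2.1 0 = c0 q.2.1 := rfl
  have t1 : stf q.2.1 1 = c1 q.2.1 := rfl
  have t2 : stf q.2.1 2 = c2 q.2.1 := rfl
  have y : ∀ i j, yf q.2.2.1 (i, j) = yd q.2.2.1 i j := fun _ _ => rfl
  rw [s0, s1, y, y, y] at e0
  rw [s0, s2, y, y, y] at e1
  rw [s1, s2, y, y, y] at e2
  rw [t0, t1, y, y, y] at e3
  rw [t0, t2, y, y, y] at e4
  rw [t1, t2, y, y, y] at e5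
  simp only [Fin.val_zero, Fin.val_one, Fin.val_two] at e0 e1 e2 e3 e4 e5
  constructor
  · intro v
    unfold XX
    fin_cases v
    · exact e0.trans h1
    · exact e1.trans h2
    · exact e2.trans h3
    · exact e3.trans h4
    · exact e4.trans h5
    · exact e5.trans h6
  · unfold XX mk
    simp only [Fintype.sum_sum_type, Fintype.sum_prod_type, Fin.sum_univ_three, Sum.elim_inl,
      Sum.elim_inr, s0, s1, s2, t0, t1, t2, y, Fin.val_zero, Fin.val_one, Fin.val_two]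
    omega

lemma Lf_list (k : ℕ) (V : (Pr → ℕ) → ℝ) (l : List (ℕ × ℕ × ℕ × ℤ)) :
    (∀ q ∈ l, ∑ e, XX q e = k) →
    ∑ x ∈ Finset.piAntidiag (Finset.univ : Finset Pr) k, ifac x *
      ((((l.map fun q => if x = XX q then q.2.2.2 else 0).sum : ℤ) : ℝ) * V x)
      = (l.map fun q => (q.2.2.2 : ℝ) * (ifac (XX q) * V (XX q))).sum := by
  induction l with
  | nil => intro _; simp
  | cons q l ih =>
    intro h
    rw [List.map_cons, List.sum_cons, ← ih fun q' hq' => h q' (List.mem_cons_of_mem _ hq')]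
    have hq : XX q ∈ Finset.piAntidiag (Finset.univ : Finset Pr) k := by
      rw [Finset.mem_piAntidiag]
      exact ⟨h q List.mem_cons_self, fun _ _ => Finset.mem_univ _⟩
    have h1 : (q.2.2.2 : ℝ) * (ifac (XX q) * V (XX q)) =
        ∑ x ∈ Finset.piAntidiag (Finset.univ : Finset Pr) k, if x = XX q then
          (q.2.2.2 : ℝ) * (ifac x * V x) else 0 := by
      rw [Finset.sum_ite_eq' _ _ fun x => (q.2.2.2 : ℝ) * (ifac x * V x), if_pos hq]
    rw [h1, ← Finset.sum_add_distrib]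
    refine Finset.sum_congr rfl fun x _ => ?_
    rw [List.map_cons, List.sum_cons]
    push_cast
    by_cases hx : x = XX q
    · rw [if_pos hx, if_pos hx]
      ring
    · rw [if_neg hx, if_neg hx]
      ring

/-! ### The weights -/

lemma getR_eq {β : Type} (d : β) : ∀ (l : List β) (n : ℕ), getR d l n = l.getD n d
  | [], n => by simp [getR]
  | a :: l, 0 => rfl
  | a :: l, n + 1 => by
    have := getR_eq d l n
    show getR d l n = _
    rw [this]
    simp

lemma gq (p x : ℕ) (h : x ≤ p) :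
    ((getR 0 (fqs p) x : ℕ) : ℝ) = (p.factorial : ℝ) * ((x.factorial : ℝ)⁻¹) := by
  have h1 : getR 0 (fqs p) x = p.factorial / x.factorial := by
    rw [getR_eq]
    unfold fqs
    rw [List.getD_eq_getElem _ _ (by simp; omega)]
    simp
  rw [h1, Nat.cast_div (Nat.factorial_dvd_factorial h) (by positivity)]
  rfl

lemma dq_succ (fq : List ℕ) (n c : ℕ) :
    dq fq (n + 1) c = getR 0 fq (c % 16) * dq fq n (c / 16) := rfl

lemma dq_zero (fq : List ℕ) (c : ℕ) : dq fq 0 c = 1 := rfl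

lemma le5 {a b c d e p : ℕ} (h : a + b + (c + d + e) = p) :
    a ≤ p ∧ b ≤ p ∧ c ≤ p ∧ d ≤ p ∧ e ≤ p := by omega

lemma wt_eq (p : ℕ) (hp : p ≤ 11) (q : ℕ × ℕ × ℕ × ℤ) (h : okC p q.1 q.2.1 q.2.2.1 = true) :
    ((wt (fqs p) q.1 q.2.1 q.2.2.1 : ℕ) : ℝ) = (p.factorial : ℝ) ^ 15 * ifac (XX q) := by
  unfold okC at h
  simp only [Bool.and_eq_true, decide_eq_true_eq] at h
  obtain ⟨⟨⟨⟨⟨⟨h0, h1⟩, h2⟩, h3⟩, h4⟩, h5⟩, h6⟩ := h
  obtain ⟨s, t, c, v⟩ := q
  simp only at h0 h1 h2 h3 h4 h5 h6 ⊢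
  have hc : ∀ s, c0 s ≤ 11 → s % 16 = c2 s ∧ s / 16 % 16 = c1 s ∧ s / 16 / 16 % 16 = c0 s := by
    intro s hs
    unfold c0 at *
    unfold c1 c2
    refine ⟨rfl, rfl, ?_⟩
    omega
  obtain ⟨l1, l2, m00, m01, m02⟩ := le5 h1
  obtain ⟨_, l3, m10, m11, m12⟩ := le5 h2
  obtain ⟨_, _, m20, m21, m22⟩ := le5 h3
  obtain ⟨l4, l5, _, _, _⟩ := le5 h4
  obtain ⟨_, l6, _, _, _⟩ := le5 h5
  obtain ⟨a1, a2, a3⟩ := hc s (l1.trans hp)
  obtain ⟨b1, b2, b3⟩ := hc t (l4.trans hp)
  have d0 : yd c 2 2 = c % 16 := by simp [yd]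
  have d1 : yd c 2 1 = c / 16 % 16 := by simp [yd]
  have d2 : yd c 2 0 = c / 16 / 16 % 16 := by simp [yd, Nat.div_div_eq_div_mul]
  have d3 : yd c 1 2 = c / 16 / 16 / 16 % 16 := by simp [yd, Nat.div_div_eq_div_mul]
  have d4 : yd c 1 1 = c / 16 / 16 / 16 / 16 % 16 := by simp [yd, Nat.div_div_eq_div_mul]
  have d5 : yd c 1 0 = c / 16 / 16 / 16 / 16 / 16 % 16 := by simp [yd, Nat.div_div_eq_div_mul]
  have d6 : yd c 0 2 = c / 16 / 16 / 16 / 16 / 16 / 16 % 16 := by simp [yd, Nat.div_div_eq_div_mul]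
  have d7 : yd c 0 1 = c / 16 / 16 / 16 / 16 / 16 / 16 / 16 % 16 := by simp [yd, Nat.div_div_eq_div_mul]
  have d8 : yd c 0 0 = c / 16 / 16 / 16 / 16 / 16 / 16 / 16 / 16 % 16 := by simp [yd, Nat.div_div_eq_div_mul]
  unfold wt
  simp only [dq_succ, dq_zero, a1, a2, a3, b1, b2, b3, ← d0, ← d1, ← d2, ← d3, ← d4, ← d5, ← d6,
    ← d7, ← d8]
  push_cast
  rw [gq p (c0 s) l1, gq p (c1 s) l2, gq p (c2 s) l3, gq p (c0 t) l4, gq p (c1 t) l5,
    gq p (c2 t) l6, gq p (yd c 0 0) m00, gq p (yd c 0 1) m01, gq p (yd c 0 2) m02,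
    gq p (yd c 1 0) m10, gq p (yd c 1 1) m11, gq p (yd c 1 2) m12,
    gq p (yd c 2 0) m20, gq p (yd c 2 1) m21, gq p (yd c 2 2) m22]
  have hI : ifac (XX (s, t, c, v)) = ((c0 s).factorial : ℝ)⁻¹ * ((c1 s).factorial : ℝ)⁻¹ *
      ((c2 s).factorial : ℝ)⁻¹ * ((((c0 t).factorial : ℝ)⁻¹ * ((c1 t).factorial : ℝ)⁻¹ *
      ((c2 t).factorial : ℝ)⁻¹) * (((yd c 0 0).factorial : ℝ)⁻¹ * ((yd c 0 1).factorial : ℝ)⁻¹ *
      ((yd c 0 2).factorial : ℝ)⁻¹ * (((yd c 1 0).factorial : ℝ)⁻¹ * ((yd c 1 1).factorial : ℝ)⁻¹ *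
      ((yd c 1 2).factorial : ℝ)⁻¹) * (((yd c 2 0).factorial : ℝ)⁻¹ * ((yd c 2 1).factorial : ℝ)⁻¹ *
      ((yd c 2 2).factorial : ℝ)⁻¹))) := by
    unfold ifac XX mk
    simp only [Fintype.prod_sum_type, Fintype.prod_prod_type, Fin.prod_univ_three, Sum.elim_inl,
      Sum.elim_inr]
    rfl
  rw [hI]
  ring

/-! ### One block -/

lemma yf_mirc (p s : ℕ) (hp : p ≤ 11) :
    yf (mirc p s) = fun c => if c.1 = c.2 then lgs p (stf s) c.1 else 0 := by
  have h := cy_digits (fun c => if c.1 = c.2 then lgs p (stf s) c.1 else 0) (by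
    rintro ⟨i, j⟩
    have h0 : lgs p (stf s) 0 = p - (c0 s + c1 s) := rfl
    have h1 : lgs p (stf s) 1 = p - (c0 s + c2 s) := rfl
    have h2 : lgs p (stf s) 2 = p - (c1 s + c2 s) := rfl
    fin_cases i <;> fin_cases j <;> simp [h0, h1, h2] <;> omega)
  exact h

lemma sum_le_sum_list {α : Type} (l : List α) (f g : α → ℝ) (h : ∀ a ∈ l, f a ≤ g a) :
    (l.map f).sum ≤ (l.map g).sum := by
  induction l with
  | nil => simp
  | cons a l ih =>
    rw [List.map_cons, List.sum_cons, List.map_cons, List.sum_cons]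
    exact add_le_add (h a List.mem_cons_self) (ih fun b hb => h b (List.mem_cons_of_mem _ hb))

lemma single_le {α : Type} (l : List α) (f : α → ℝ) (h : ∀ a ∈ l, 0 ≤ f a) (a : α)
    (ha : a ∈ l) : f a ≤ (l.map f).sum := by
  induction l with
  | nil => simp at ha
  | cons b l ih =>
    rw [List.map_cons, List.sum_cons]
    have h0 : 0 ≤ (l.map f).sum := by
      apply List.sum_nonneg
      intro x hx
      obtain ⟨c, hc, rfl⟩ := List.mem_map.mp hx
      exact h c (List.mem_cons_of_mem _ hc)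
    rcases List.mem_cons.mp ha with h1 | h1
    · rw [h1]
      linarith
    · have := ih (fun c hc => h c (List.mem_cons_of_mem _ hc)) h1
      have := h b List.mem_cons_self
      linarith

/-- lower bound of twice the contribution of a correction -/
noncomputable def ctr (p : ℕ) (M : ℕ → ℝ) (q : ℕ × ℕ × ℕ × ℤ) : ℝ :=
  if q.1 = q.2.1 ∧ q.2.2.1 = mirc p q.1 then
    2 * ((q.2.2.2.toNat : ℝ) * (wt (fqs p) q.1 q.2.1 q.2.2.1 : ℝ)) * M q.1
  else -(((q.2.2.2.natAbs : ℝ) * (wt (fqs p) q.1 q.2.1 q.2.2.1 : ℝ)) * (M q.1 + M q.2.1))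

lemma collect (p : ℕ) (M : ℕ → ℝ) (U : Finset ℕ) (l : List (ℕ × ℕ × ℕ × ℤ)) :
    (∀ q ∈ l, q.1 ∈ U ∧ q.2.1 ∈ U) →
    ∑ u ∈ U, ((dpos p (fqs p) l u : ℝ) - (dneg p (fqs p) l u : ℝ)) * M u
      = (l.map (ctr p M)).sum := by
  induction l with
  | nil => intro _; simp [dpos, dneg]
  | cons q l ih =>
    intro h
    rw [List.map_cons, List.sum_cons, ← ih fun q' hq' => h q' (List.mem_cons_of_mem _ hq')]
    obtain ⟨hU1, hU2⟩ := h q List.mem_cons_self
    have hp : ∀ u, dpos p (fqs p) (q :: l) u = (if q.1 = u ∧ q.2.1 = u ∧ q.2.2.1 = mirc p u then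
        2 * (q.2.2.2.toNat * wt (fqs p) q.1 q.2.1 q.2.2.1) else 0) + dpos p (fqs p) l u := by
      intro u
      unfold dpos
      rw [List.map_cons, List.sum_cons]
    have hn : ∀ u, dneg p (fqs p) (q :: l) u = (if q.1 = q.2.1 ∧ q.2.2.1 = mirc p q.1 then 0 else
      ((if q.1 = u then 1 else 0) + if q.2.1 = u then 1 else 0) *
      (q.2.2.2.natAbs * wt (fqs p) q.1 q.2.1 q.2.2.1)) + dneg p (fqs p) l u := by
      intro u
      unfold dneg
      rw [List.map_cons, List.sum_cons]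
    have hsum : ctr p M q = ∑ u ∈ U, (((if q.1 = u ∧ q.2.1 = u ∧ q.2.2.1 = mirc p u then
        2 * (q.2.2.2.toNat * wt (fqs p) q.1 q.2.1 q.2.2.1) else 0 : ℕ) : ℝ)
        - ((if q.1 = q.2.1 ∧ q.2.2.1 = mirc p q.1 then 0 else
      ((if q.1 = u then 1 else 0) + if q.2.1 = u then 1 else 0) *
      (q.2.2.2.natAbs * wt (fqs p) q.1 q.2.1 q.2.2.1) : ℕ) : ℝ)) * M u := by
      unfold ctr
      by_cases hm : q.1 = q.2.1 ∧ q.2.2.1 = mirc p q.1
      · rw [if_pos hm]
        rw [Finset.sum_eq_single q.1]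
        · rw [if_pos ⟨rfl, hm.1.symm, hm.2⟩, if_pos hm]
          push_cast
          ring
        · intro u _ hu
          rw [if_neg (fun h => hu h.1.symm), if_pos hm]
          simp
        · intro h
          exact absurd hU1 h
      · rw [if_neg hm]
        have h1 : ∀ u ∈ U, (((if q.1 = u ∧ q.2.1 = u ∧ q.2.2.1 = mirc p u then
            2 * (q.2.2.2.toNat * wt (fqs p) q.1 q.2.1 q.2.2.1) else 0 : ℕ) : ℝ)
            - ((if q.1 = q.2.1 ∧ q.2.2.1 = mirc p q.1 then 0 else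
          ((if q.1 = u then 1 else 0) + if q.2.1 = u then 1 else 0) *
          (q.2.2.2.natAbs * wt (fqs p) q.1 q.2.1 q.2.2.1) : ℕ) : ℝ)) * M u
          = (if q.1 = u then -(((q.2.2.2.natAbs : ℝ) * (wt (fqs p) q.1 q.2.1 q.2.2.1 : ℝ)) * M u)
            else 0) + (if q.2.1 = u then
            -(((q.2.2.2.natAbs : ℝ) * (wt (fqs p) q.1 q.2.1 q.2.2.1 : ℝ)) * M u) else 0) := by
          intro u _
          rw [if_neg (fun h => hm ⟨h.1.trans h.2.1.symm, by rw [h.1]; exact h.2.2⟩), if_neg hm]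
          by_cases a1 : q.1 = u
          · by_cases a2 : q.2.1 = u
            · simp only [if_pos a1, if_pos a2]
              push_cast
              ring
            · simp only [if_pos a1, if_neg a2]
              push_cast
              ring
          · by_cases a2 : q.2.1 = u
            · simp only [if_neg a1, if_pos a2]
              push_cast
              ring
            · simp only [if_neg a1, if_neg a2]
              push_cast
              ring
        rw [Finset.sum_congr rfl h1, Finset.sum_add_distrib, Finset.sum_ite_eq, Finset.sum_ite_eq,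
          if_pos hU1, if_pos hU2]
        ring
    rw [hsum, ← Finset.sum_add_distrib]
    refine Finset.sum_congr rfl fun u _ => ?_
    rw [hp, hn]
    rw [Nat.cast_add, Nat.cast_add]
    ring

lemma ctr_le (p : ℕ) (hp : p ≤ 11) (S : Finset ℕ) (P : R) (h2 : CsiStatement) (hP : Cha S p P)
    (q : ℕ × ℕ × ℕ × ℤ) (hq : okC p q.1 q.2.1 q.2.2.1 = true)
    (hm : (q.1 = q.2.1 ∧ q.2.2.1 = mirc p q.1) → 0 ≤ q.2.2.2) :
    ctr p (fun u => Vx S P (mir p (stf u))) q ≤
      2 * (p.factorial : ℝ) ^ 15 * ((q.2.2.2 : ℝ) * (ifac (XX q) * Vx S P (XX q))) := by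
  have hw := wt_eq p hp q hq
  obtain ⟨hc, _⟩ := okC_cmp p q hq
  have hr : 2 * (p.factorial : ℝ) ^ 15 * ((q.2.2.2 : ℝ) * (ifac (XX q) * Vx S P (XX q)))
      = (wt (fqs p) q.1 q.2.1 q.2.2.1 : ℝ) * ((q.2.2.2 : ℝ) * (2 * Vx S P (XX q))) := by
    rw [hw]; ring
  rw [hr]
  unfold ctr
  by_cases h : q.1 = q.2.1 ∧ q.2.2.1 = mirc p q.1
  · rw [if_pos h]
    have hv : ((q.2.2.2.toNat : ℕ) : ℝ) = (q.2.2.2 : ℝ) := by
      have := Int.toNat_of_nonneg (hm h)
      exact_mod_cast this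
    have hx : XX q = mir p (stf q.1) := by
      unfold XX mir
      rw [h.2, yf_mirc p q.1 hp, ← h.1]
    rw [hv, hx]
    apply le_of_eq
    ring
  · rw [if_neg h]
    have hcs := (h2 S p P hP).2 (stf q.1) (stf q.2.1) (yf q.2.2.1) hc
    have hV : Vx S P (mk (stf q.1) (stf q.2.1) (yf q.2.2.1)) = Vx S P (XX q) := rfl
    rw [hV] at hcs
    have hva : ((q.2.2.2.natAbs : ℕ) : ℝ) = |(q.2.2.2 : ℝ)| := by
      rw [Nat.cast_natAbs]
      simp
    rw [hva]
    have hwn : (0 : ℝ) ≤ (wt (fqs p) q.1 q.2.1 q.2.2.1 : ℝ) := Nat.cast_nonneg _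
    have h3 : -(|(q.2.2.2 : ℝ)| * (2 * |Vx S P (XX q)|)) ≤ (q.2.2.2 : ℝ) * (2 * Vx S P (XX q)) := by
      have h4 := neg_abs_le ((q.2.2.2 : ℝ) * (2 * Vx S P (XX q)))
      rw [abs_mul, abs_mul, abs_two] at h4
      exact h4
    have h5 : |(q.2.2.2 : ℝ)| * (2 * |Vx S P (XX q)|) ≤ |(q.2.2.2 : ℝ)| *
        (Vx S P (mir p (stf q.1)) + Vx S P (mir p (stf q.2.1))) :=
      mul_le_mul_of_nonneg_left hcs (abs_nonneg _)
    have h6 := mul_le_mul_of_nonneg_left (le_trans (neg_le_neg h5) h3) hwn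
    refine le_trans (le_of_eq ?_) h6
    ring

theorem rfaU (h2 : CsiStatement) (h3 : PvzStatement) : RfaUStatement := by
  intro p tab bn sn hp2 hp hk hok hdd hbn hsn hcode
  have hK : (0 : ℝ) < 2 * (p.factorial : ℝ) ^ 15 := by positivity
  refine ⟨(2 * (p.factorial : ℝ) ^ 15)⁻¹, inv_pos.mpr hK, ?_⟩
  intro S P hP
  rw [inv_mul_le_iff₀ hK]
  set M : ℕ → ℝ := fun u => Vx S P (mir p (stf u)) with hM
  have hM0 : ∀ u, 0 ≤ M u := fun u => (h2 S p P hP).1 (stf u)
  have hneck : Vx S P (mir p ![p - 1, 1, 0]) = M (cm (p - 1) 1 0) := by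
    show _ = Vx S P (mir p (stf (cm (p - 1) 1 0)))
    rw [stf_cm (p - 1) 1 0 (by norm_num) (by norm_num)]
  have hL : Lf (3 * p) (fun x : Pr → ℕ => (Rf p tab x : ℝ) * Vx S P x)
      = ((tab.flatMap cors).map fun q =>
        (q.2.2.2 : ℝ) * (ifac (XX q) * Vx S P (XX q))).sum := by
    rw [← Lf_list (3 * p) (Vx S P) (tab.flatMap cors)]
    · unfold Lf
      refine Finset.sum_congr rfl fun x _ => ?_
      show ifac x * (((Rf p tab x : ℤ) : ℝ) * Vx S P x) = _
      by_cases hx : Cmp p x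
      · rw [Rf_eq p _ tab hp hk hok hdd x hx]
      · rw [h3 S p P x hP hx, mul_zero, mul_zero, mul_zero, mul_zero]
    · intro q hq
      obtain ⟨bl, hbl, hq⟩ := List.mem_flatMap.mp hq
      exact (okC_cmp p q ((ddB_facts p _ bl (hdd bl hbl)).2.1 q hq)).2
  rw [hL, sum_fm, ← List.sum_map_mul_left]
  have hblock : ∀ bl ∈ tab, ∑ u ∈ (bl.ss.map fun s => s.code).toFinset,
      ((dpos p (fqs p) (cors bl) u : ℝ) - (dneg p (fqs p) (cors bl) u : ℝ)) * M u ≤
      2 * (p.factorial : ℝ) ^ 15 * ((cors bl).map fun q =>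
        (q.2.2.2 : ℝ) * (ifac (XX q) * Vx S P (XX q))).sum := by
    intro bl hbl
    obtain ⟨d1, d2, d3, d4, d5⟩ := ddB_facts p _ bl (hdd bl hbl)
    obtain ⟨hnd, hts⟩ := okB_nd p bl (hok bl hbl)
    rw [collect p M _ (cors bl)]
    · rw [← List.sum_map_mul_left]
      refine sum_le_sum_list _ _ _ fun q hq => ?_
      exact ctr_le p hp S P h2 hP q (d2 q hq) (d3 q hq)
    · intro q hq
      unfold cors at hq
      obtain ⟨se, hse, hq⟩ := List.mem_flatMap.mp hq
      obtain ⟨te, hte, hq⟩ := List.mem_flatMap.mp hq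
      obtain ⟨q', hq', rfl⟩ := List.mem_map.mp hq
      rw [List.mem_toFinset, List.mem_toFinset]
      exact ⟨List.mem_map.mpr ⟨se, hse, rfl⟩, (okTs_spec bl.ss hts hnd se hse).2 te hte⟩
  have hterm : ∀ bl ∈ tab, ∀ u ∈ (bl.ss.map fun s => s.code).toFinset,
      0 ≤ ((dpos p (fqs p) (cors bl) u : ℝ) - (dneg p (fqs p) (cors bl) u : ℝ)) * M u := by
    intro bl hbl u hu
    obtain ⟨d1, d2, d3, d4, d5⟩ := ddB_facts p _ bl (hdd bl hbl)
    have := d4 u (List.mem_toFinset.mp hu)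
    have h5 : ((dneg p (fqs p) (cors bl) u : ℕ) : ℝ) ≤ (dpos p (fqs p) (cors bl) u : ℝ) := by
      exact_mod_cast this
    exact mul_nonneg (by linarith) (hM0 u)
  have hpos : ∀ bl ∈ tab, 0 ≤ 2 * (p.factorial : ℝ) ^ 15 * ((cors bl).map fun q =>
        (q.2.2.2 : ℝ) * (ifac (XX q) * Vx S P (XX q))).sum := fun bl hbl =>
    le_trans (Finset.sum_nonneg (hterm bl hbl)) (hblock bl hbl)
  refine le_trans ?_ (single_le tab _ hpos bn hbn)
  refine le_trans ?_ (hblock bn hbn)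
  have hmem : cm (p - 1) 1 0 ∈ (bn.ss.map fun s => s.code).toFinset := by
    rw [List.mem_toFinset]
    exact List.mem_map.mpr ⟨sn, hsn, hcode⟩
  refine le_trans ?_ (Finset.single_le_sum (hterm bn hbn) hmem)
  rw [hneck]
  obtain ⟨d1, d2, d3, d4, d5⟩ := ddB_facts p _ bn (hdd bn hbn)
  have h5 := d5 _ (List.mem_toFinset.mp hmem) rfl
  have h6 : ((dneg p (fqs p) (cors bn) (cm (p - 1) 1 0) : ℕ) : ℝ) + 1
      ≤ (dpos p (fqs p) (cors bn) (cm (p - 1) 1 0) : ℝ) := by exact_mod_cast h5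
  have h7 := mul_le_mul_of_nonneg_right (show (1 : ℝ) ≤
    (dpos p (fqs p) (cors bn) (cm (p - 1) 1 0) : ℝ)
    - (dneg p (fqs p) (cors bn) (cm (p - 1) 1 0) : ℝ) by linarith) (hM0 (cm (p - 1) 1 0))
  linarith

/-- the module statement of the interface (the constant may be chosen uniformly, see `rfaU`) -/
theorem rfa (_h1 : FibStatement) (h2 : CsiStatement) (h3 : PvzStatement) : RfaStatement := by
  intro S p P tab bn sn hp2 hp hP hk hok hdd hbn hsn hcode
  obtain ⟨c, hc, h⟩ := rfaU h2 h3 p tab bn sn hp2 hp hk hok hdd hbn hsn hcode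
  exact ⟨c, hc, h S P hP⟩

end A602.S6.H9
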