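import Pool.Agent.Lib.MP_a60258_s6.Iface

/-!
# Module KID: the kernel of a checked block is the Gram kernel of integer vectors
-/

open Finset

namespace A602.S6.H9

lemma nbeq {a b : ℕ} : Nat.beq a b = true ↔ a = b :=
  ⟨Nat.eq_of_beq_eq_true, fun h => by subst h; exact Nat.beq_refl a⟩

/-- the vector of the content `α`: first match -/
def vAt : List (ℕ × ℕ × ℕ) → List ℕ → (ℕ × ℕ × ℕ) → ℕ
  | c :: cs, v :: w, α => if c = α then v else vAt cs w α
  | _, _, _ => 0

/-- first matching row -/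
def rvL (rows : List RW) (α : ℕ × ℕ × ℕ) : ℕ :=
  ((rows.find? fun rw => rw.a == α.1 && rw.b == α.2.1 && rw.c == α.2.2).map RW.r).getD 0

lemma okDig_cons (d r : ℕ) (u : List ℤ) (c : ℕ × ℕ × ℕ) (cs : List (ℕ × ℕ × ℕ)) (v : ℕ)
    (w : List ℕ) : okDig d r u (c :: cs) (v :: w) =
      cond (decide (Int.ofNat (d64 r (Nat.add (Nat.mul (Nat.succ d) c.1) c.2.1))
        = Int.add 9223372036854775808 (dotZ u (unp v)))) (okDig d r u cs w) false := rfl

lemma okDig_nil (d r : ℕ) (u : List ℤ) (c : ℕ × ℕ × ℕ) (cs : List (ℕ × ℕ × ℕ)) :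
    okDig d r u (c :: cs) [] = false := rfl

lemma okDig_spec (d r : ℕ) (u : List ℤ) : ∀ (cs : List (ℕ × ℕ × ℕ)) (w : List ℕ),
    okDig d r u cs w = true → ∀ β ∈ cs, (d64 r ((d + 1) * β.1 + β.2.1) : ℤ)
      = 9223372036854775808 + dotZ u (unp (vAt cs w β))
  | [], _, _, _, hβ => by simp at hβ
  | c :: cs, [], h, _, _ => by rw [okDig_nil] at h; simp at h
  | c :: cs, v :: w, h, β, hβ => by
    rw [okDig_cons] at h
    rcases Decidable.em (Int.ofNat (d64 r (Nat.add (Nat.mul (Nat.succ d) c.1) c.2.1))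
        = Int.add 9223372036854775808 (dotZ u (unp v))) with h1 | h1
    · rw [decide_eq_true h1] at h
      simp only [cond_true] at h
      by_cases hc : c = β
      · subst hc
        simp only [vAt, if_true]
        exact h1
      · simp only [vAt, if_neg hc]
        refine okDig_spec d r u cs w h β ?_
        rcases List.mem_cons.mp hβ with h2 | h2
        · exact absurd h2.symm hc
        · exact h2
    · rw [decide_eq_false h1] at h
      simp at h

lemma okRows_cons (d q0 q1 q2 : ℕ) (cs0 : List (ℕ × ℕ × ℕ)) (vt : List ℕ) (c : ℕ × ℕ × ℕ)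
    (cs : List (ℕ × ℕ × ℕ)) (v : ℕ) (w : List ℕ) (rw : RW) (rows : List RW) :
    okRows d q0 q1 q2 cs0 vt (c :: cs) (v :: w) (rw :: rows) =
      (Nat.beq rw.a c.1 && Nat.beq rw.b c.2.1 && Nat.beq rw.c c.2.2
        && cond (Nat.beq rw.r 0)
          (Nat.beq v 0 && (Nat.blt q0 rw.a || Nat.blt q1 rw.b || Nat.blt q2 rw.c))
          (okDig d rw.r (unp v) cs0 vt)
        && okRows d q0 q1 q2 cs0 vt cs w rows) := rfl

lemma okRows_nil_left (d q0 q1 q2 : ℕ) (cs0 : List (ℕ × ℕ × ℕ)) (vt : List ℕ) (c : ℕ × ℕ × ℕ)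
    (cs : List (ℕ × ℕ × ℕ)) (rows : List RW) :
    okRows d q0 q1 q2 cs0 vt (c :: cs) [] rows = false := rfl

lemma okRows_nil_right (d q0 q1 q2 : ℕ) (cs0 : List (ℕ × ℕ × ℕ)) (vt : List ℕ) (c : ℕ × ℕ × ℕ)
    (cs : List (ℕ × ℕ × ℕ)) (v : ℕ) (w : List ℕ) :
    okRows d q0 q1 q2 cs0 vt (c :: cs) (v :: w) [] = false := rfl

lemma okRows_nil (d q0 q1 q2 : ℕ) (cs0 : List (ℕ × ℕ × ℕ)) (vt : List ℕ)
    (w : List ℕ) (rows : List RW) :
    okRows d q0 q1 q2 cs0 vt [] w rows = (decide (w.length = 0) && decide (rows.length = 0)) := rfl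

lemma okRows_spec (d q0 q1 q2 : ℕ) (cs0 : List (ℕ × ℕ × ℕ)) (vt : List ℕ) :
    ∀ (cs : List (ℕ × ℕ × ℕ)) (w : List ℕ) (rows : List RW),
    okRows d q0 q1 q2 cs0 vt cs w rows = true →
    (rows.map fun rw => (rw.a, rw.b, rw.c)) = cs ∧
    ∀ α ∈ cs, (q0 < α.1 ∨ q1 < α.2.1 ∨ q2 < α.2.2) ∨
      okDig d (rvL rows α) (unp (vAt cs w α)) cs0 vt = true
  | [], w, rows, h => by
    rw [okRows_nil] at h
    simp only [Bool.and_eq_true, decide_eq_true_eq, List.length_eq_zero_iff] at h
    refine ⟨by rw [h.2]; rfl, fun α hα => by simp at hα⟩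
  | c :: cs, [], rows, h => by rw [okRows_nil_left] at h; simp at h
  | c :: cs, v :: w, [], h => by rw [okRows_nil_right] at h; simp at h
  | c :: cs, v :: w, rw :: rows, h => by
    rw [okRows_cons] at h
    simp only [Bool.and_eq_true, nbeq] at h
    obtain ⟨⟨⟨⟨ha, hb⟩, hc⟩, hd⟩, he⟩ := h
    obtain ⟨hm, hi⟩ := okRows_spec d q0 q1 q2 cs0 vt cs w rows he
    refine ⟨?_, ?_⟩
    · rw [List.map_cons, hm, ha, hb, hc]
    · intro α hα
      by_cases hca : c = α
      · subst hca
        have hr : rvL (rw :: rows) c = rw.r := by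
          unfold rvL
          rw [List.find?_cons]
          simp [ha, hb, hc]
        rw [hr]
        simp only [vAt, if_true]
        rcases Decidable.em (rw.r = 0) with h0 | h0
        · rw [h0] at hd
          simp only [Nat.beq_refl, cond_true, Bool.and_eq_true, Bool.or_eq_true] at hd
          left
          obtain ⟨_, h2⟩ := hd
          simp only [Nat.blt_eq, ha, hb, hc] at h2
          tauto
        · have : Nat.beq rw.r 0 = false := by
            rw [← Bool.not_eq_true, nbeq]; exact h0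
          rw [this] at hd
          right
          exact hd
      · have hr : rvL (rw :: rows) α = rvL rows α := by
          unfold rvL
          rw [List.find?_cons]
          have : (rw.a == α.1 && rw.b == α.2.1 && rw.c == α.2.2) = false := by
            rw [← Bool.not_eq_true]
            intro h1
            simp only [Bool.and_eq_true, beq_iff_eq] at h1
            apply hca
            rw [ha, hb, hc] at h1
            exact Prod.ext h1.1.1 (Prod.ext h1.1.2 h1.2)
          rw [this]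
        rw [hr]
        simp only [vAt, if_neg hca]
        refine hi α ?_
        rcases List.mem_cons.mp hα with h2 | h2
        · exact absurd h2.symm hca
        · exact h2

lemma unp_len (v : ℕ) : (unp v).length ≤ 300 := by
  unfold unp
  generalize 300 = n
  induction n generalizing v with
  | zero => simp
  | succ n ih =>
    show (cond (Nat.beq v 0) [] (List.cons _ _)).length ≤ n + 1
    cases Nat.beq v 0 with
    | true => simp
    | false =>
      simp only [cond_false, List.length_cons]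
      have := ih (Nat.div v 1099511627776)
      omega

lemma dotZ_nil (w : List ℤ) : dotZ [] w = 0 := rfl
lemma dotZ_nil' (a : ℤ) (u : List ℤ) : dotZ (a :: u) [] = 0 := rfl
lemma dotZ_cons (a b : ℤ) (u w : List ℤ) : dotZ (a :: u) (b :: w) = a * b + dotZ u w := rfl

lemma dotZ_eq : ∀ (n : ℕ) (u w : List ℤ), u.length ≤ n →
    dotZ u w = ∑ q ∈ Finset.range n, u.getD q 0 * w.getD q 0
  | _, [], w, _ => by simp [dotZ_nil]
  | _, a :: u, [], _ => by simp [dotZ_nil']
  | 0, a :: u, b :: w, h => by simp at h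
  | n + 1, a :: u, b :: w, h => by
    rw [dotZ_cons, Finset.sum_range_succ', dotZ_eq n u w (by simpa using h)]
    simp [add_comm]

lemma fS_eq {β : Type} (dflt : β) (f : SE → β) : ∀ (ss : List SE) (se : SE), se ∈ ss →
    (ss.map fun s => s.code).Nodup → fS dflt ss se.code f = f se
  | [], _, h, _ => by simp at h
  | s :: ss, se, h, hn => by
    show cond (Nat.beq s.code se.code) (f s) (fS dflt ss se.code f) = f se
    rw [List.map_cons, List.nodup_cons] at hn
    rcases List.mem_cons.mp h with h1 | h1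
    · rw [h1]
      have : Nat.beq s.code s.code = true := by rw [nbeq]
      rw [this, cond_true]
    · have : Nat.beq s.code se.code = false := by
        rw [← Bool.not_eq_true, nbeq]
        intro h2
        apply hn.1
        rw [h2]
        exact List.mem_map.mpr ⟨se, h1, rfl⟩
      rw [this, cond_false]
      exact fS_eq dflt f ss se h1 hn.2

/-- Vandermonde -/
lemma vdm {α : Type} [DecidableEq α] (y : α → ℕ) (s : Finset α) : ∀ d : ℕ,
    ∑ b ∈ Finset.piAntidiag s d, ∏ c ∈ s, (y c).choose (b c) = (∑ c ∈ s, y c).choose d := by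
  induction s using Finset.induction_on with
  | empty =>
    intro d
    rcases Nat.eq_zero_or_pos d with h | h
    · subst h; simp
    · rw [Finset.piAntidiag_empty_of_ne_zero h.ne']
      simp
      exact (Nat.choose_eq_zero_of_lt h).symm
  | insert a s ha ih =>
    intro d
    rw [← Finset.cons_eq_insert a s ha, Finset.piAntidiag_cons, Finset.sum_disjiUnion,
      Finset.sum_cons, Nat.add_choose_eq]
    refine Finset.sum_congr rfl fun p _ => ?_
    rw [Finset.sum_map]
    simp only [Finset.prod_cons]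
    rw [← ih p.2, Finset.mul_sum]
    refine Finset.sum_congr rfl fun b hb => ?_
    have hba : b a = 0 := by
      by_contra h
      exact ha ((Finset.mem_piAntidiag.mp hb).2 a h)
    congr 1
    · simp [addRightEmbedding, hba]
    · refine Finset.prod_congr rfl fun c hc => ?_
      have : c ≠ a := fun h => ha (h ▸ hc)
      simp [addRightEmbedding, this]

lemma deg_mk (m m' : Fin 3 → ℕ) (y : Fin 3 × Fin 3 → ℕ) :
    deg (mk m m' y) 0 = m 0 + m 1 + (y (0, 0) + y (0, 1) + y (0, 2)) ∧
    deg (mk m m' y) 1 = m 0 + m 2 + (y (1, 0) + y (1, 1) + y (1, 2)) ∧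
    deg (mk m m' y) 2 = m 1 + m 2 + (y (2, 0) + y (2, 1) + y (2, 2)) ∧
    deg (mk m m' y) 3 = m' 0 + m' 1 + (y (0, 0) + y (1, 0) + y (2, 0)) ∧
    deg (mk m m' y) 4 = m' 0 + m' 2 + (y (0, 1) + y (1, 1) + y (2, 1)) ∧
    deg (mk m m' y) 5 = m' 1 + m' 2 + (y (0, 2) + y (1, 2) + y (2, 2)) := by
  refine ⟨?_, ?_, ?_, ?_, ?_, ?_⟩ <;>
  · unfold deg mk
    simp only [Fintype.sum_sum_type, Fintype.sum_prod_type, Fin.sum_univ_three, Sum.elim_inl,
      Sum.elim_inr]
    simp [ends, in3, inl, inr, Fin.ext_iff]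
    try ring

lemma mem_cts (d : ℕ) (a b c : ℕ) (h : a + b + c = d) : (a, b, c) ∈ cts d := by
  unfold cts
  rw [List.mem_flatMap]
  refine ⟨a, List.mem_range.mpr (by omega), ?_⟩
  rw [List.mem_map]
  refine ⟨b, List.mem_range.mpr (by omega), ?_⟩
  have : d - a - b = c := by omega
  rw [this]

/-- Gram vectors -/
def phi (bl : BL) (q c : ℕ) (α : Fin 3 → ℕ) : ℤ :=
  (unp (vAt (cts bl.d) (vecOf bl.ss c) (α 0, α 1, α 2))).getD q 0

lemma choose_zero (y b : Fin 3 × Fin 3 → ℕ) (i : Fin 3)
    (h : y (i, 0) + y (i, 1) + y (i, 2) < rowS b i) :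
    (∏ c, ((y c).choose (b c) : ℤ)) = 0 := by
  have h3 : rowS b i = b (i, 0) + b (i, 1) + b (i, 2) := by
    simp [rowS, Fin.sum_univ_three]
  have : ∃ j, y (i, j) < b (i, j) := by
    by_contra hcon
    push Not at hcon
    have := hcon 0
    have := hcon 1
    have := hcon 2
    omega
  obtain ⟨j, hj⟩ := this
  refine Finset.prod_eq_zero (Finset.mem_univ (i, j)) ?_
  rw [Nat.choose_eq_zero_of_lt hj]
  rfl

theorem kid (h1 : EvtStatement) : KidStatement := by
  intro p bl hp hok
  refine ⟨phi bl, ?_⟩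
  intro se hse te hte y hc
  unfold okB at hok
  simp only [Bool.and_eq_true, decide_eq_true_eq] at hok
  obtain ⟨⟨⟨⟨⟨hk, hd⟩, hcst⟩, hnd⟩, hts⟩, hss⟩ := hok
  have hs := List.all_eq_true.mp hss se hse
  unfold okS at hs
  simp only [Bool.and_eq_true, Nat.ble_eq, nbeq, List.all_eq_true] at hs
  obtain ⟨⟨⟨⟨⟨⟨hs1, hs2⟩, hs3⟩, hs4⟩, hs5⟩, hs6⟩, hs7⟩ := hs
  obtain ⟨hm, hrow⟩ := okRows_spec _ _ _ _ _ _ _ _ _ (hs7 te hte)
  obtain ⟨e0, e1, e2, e3, e4, e5⟩ := deg_mk (stf se.code) (stf te.code) y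
  rw [hc 0] at e0
  rw [hc 1] at e1
  rw [hc 2] at e2
  have s0 : stf se.code 0 = c0 se.code := rfl
  have s1 : stf se.code 1 = c1 se.code := rfl
  have s2 : stf se.code 2 = c2 se.code := rfl
  rw [s0, s1] at e0
  rw [s0, s2] at e1
  rw [s1, s2] at e2
  have hy : ∀ c, y c ≤ 11 := by
    rintro ⟨i, j⟩
    fin_cases i <;> fin_cases j <;> simp <;> omega
  have hev := h1 bl.d te.rows y hm hy
  have hvand := vdm y Finset.univ bl.d
  have hsum : ∑ c, y c = legs p bl := by
    rw [Fintype.sum_prod_type]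
    simp only [Fin.sum_univ_three]
    unfold legs
    omega
  rw [hsum] at hvand
  have hc2 : (legs p bl).choose bl.d * 9223372036854775808 = bl.cst := by
    have h3 := Nat.choose_mul_factorial_mul_factorial hd
    rw [← h3] at hcst
    have hpos : 0 < bl.d.factorial * (legs p bl - bl.d).factorial :=
      Nat.mul_pos (Nat.factorial_pos _) (Nat.factorial_pos _)
    refine Nat.eq_of_mul_eq_mul_right hpos ?_
    rw [hcst]
    ring
  have hcz : ((bl.cst : ℕ) : ℤ) = 9223372036854775808 *
      ∑ b ∈ Finset.piAntidiag Finset.univ bl.d, (∏ c, ((y c).choose (b c) : ℤ)) := by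
    rw [← hc2, ← hvand]
    push_cast
    ring
  have hpt : ∀ b ∈ Finset.piAntidiag (Finset.univ : Finset (Fin 3 × Fin 3)) bl.d,
      (∏ c, ((y c).choose (b c) : ℤ)) *
        (d64 (rv te.rows (rowS b)) ((bl.d + 1) * colS b 0 + colS b 1) : ℤ)
      = (∏ c, ((y c).choose (b c) : ℤ)) * (9223372036854775808 +
        ∑ q ∈ Finset.range 300, phi bl q se.code (rowS b) * phi bl q te.code (colS b)) := by
    intro b hb
    have hbs : ∑ c, b c = bl.d := (Finset.mem_piAntidiag.mp hb).1
    rw [Fintype.sum_prod_type] at hbs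
    simp only [Fin.sum_univ_three] at hbs
    have hr0 : rowS b 0 = b (0, 0) + b (0, 1) + b (0, 2) := by simp [rowS, Fin.sum_univ_three]
    have hr1 : rowS b 1 = b (1, 0) + b (1, 1) + b (1, 2) := by simp [rowS, Fin.sum_univ_three]
    have hr2 : rowS b 2 = b (2, 0) + b (2, 1) + b (2, 2) := by simp [rowS, Fin.sum_univ_three]
    have hl0 : colS b 0 = b (0, 0) + b (1, 0) + b (2, 0) := by simp [colS, Fin.sum_univ_three]
    have hl1 : colS b 1 = b (0, 1) + b (1, 1) + b (2, 1) := by simp [colS, Fin.sum_univ_three]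
    have hl2 : colS b 2 = b (0, 2) + b (1, 2) + b (2, 2) := by simp [colS, Fin.sum_univ_three]
    have hmr : (rowS b 0, rowS b 1, rowS b 2) ∈ cts bl.d := mem_cts _ _ _ _ (by omega)
    have hml : (colS b 0, colS b 1, colS b 2) ∈ cts bl.d := mem_cts _ _ _ _ (by omega)
    rcases hrow _ hmr with h2 | h2
    · have : (∏ c, ((y c).choose (b c) : ℤ)) = 0 := by
        rcases h2 with h2 | h2 | h2
        · exact choose_zero y b 0 (by simp only at h2; omega)
        · exact choose_zero y b 1 (by simp only at h2; omega)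
        · exact choose_zero y b 2 (by simp only at h2; omega)
      rw [this, zero_mul, zero_mul]
    · have h3 := okDig_spec _ _ _ _ _ h2 _ hml
      have h4 : rv te.rows (rowS b) = rvL te.rows (rowS b 0, rowS b 1, rowS b 2) := rfl
      have h5 : vecOf bl.ss se.code = se.vec := by
        unfold vecOf
        exact fS_eq _ _ _ _ hse hnd
      have h6 := dotZ_eq 300 _ (unp (vAt (cts bl.d) (vecOf bl.ss te.code)
        (colS b 0, colS b 1, colS b 2))) (unp_len (vAt (cts bl.d) se.vec
        (rowS b 0, rowS b 1, rowS b 2)))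
      have h7 : ∀ q, phi bl q se.code (rowS b) = (unp (vAt (cts bl.d) se.vec
        (rowS b 0, rowS b 1, rowS b 2))).getD q 0 := by
        intro q
        unfold phi
        rw [h5]
      have h8 : ∀ q, phi bl q te.code (colS b) = (unp (vAt (cts bl.d) (vecOf bl.ss te.code)
        (colS b 0, colS b 1, colS b 2))).getD q 0 := fun q => rfl
      simp only [h7, h8]
      rw [h4, h3, h6]
  have hevz : ((evT (Nat.mul 64 (Nat.succ bl.d)) 64 te.rows (y (0, 0)) (y (0, 1)) (y (0, 2))
      (y (1, 0)) (y (1, 1)) (y (1, 2)) (y (2, 0)) (y (2, 1)) (y (2, 2)) : ℕ) : ℤ)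
      = ∑ b ∈ Finset.piAntidiag (Finset.univ : Finset (Fin 3 × Fin 3)) bl.d,
        (∏ c, ((y c).choose (b c) : ℤ)) *
        (d64 (rv te.rows (rowS b)) ((bl.d + 1) * colS b 0 + colS b 1) : ℤ) := by
    rw [hev]
    push_cast
    rfl
  have hkey : ((evT (Nat.mul 64 (Nat.succ bl.d)) 64 te.rows (y (0, 0)) (y (0, 1)) (y (0, 2))
      (y (1, 0)) (y (1, 1)) (y (1, 2)) (y (2, 0)) (y (2, 1)) (y (2, 2)) : ℕ) : ℤ) - (bl.cst : ℤ)
      = ∑ b ∈ Finset.piAntidiag Finset.univ bl.d, (∏ c, ((y c).choose (b c) : ℤ))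
          * ∑ q ∈ Finset.range 300, phi bl q se.code (rowS b) * phi bl q te.code (colS b) := by
    rw [hevz, Finset.sum_congr rfl hpt, hcz, Finset.mul_sum, ← Finset.sum_sub_distrib]
    refine Finset.sum_congr rfl fun b _ => ?_
    ring
  have hyy : ∀ i j, yy (mk (stf se.code) (stf te.code) y) i j = y (i, j) := fun _ _ => rfl
  unfold trmK
  simp only [hyy]
  rw [hkey]

end A602.S6.H9
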